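import Pool.Agent.N869.GK.StmX

/-!
# GK-DIF: the difference of two close points is near infinity
-/

set_option autoImplicit false

open scoped Classical

namespace Pool.Agent.N247.GK

open WeierstrassCurve
open Pool.Agent.N869.GK.X (Wk Big S_DIF)

theorem eqn {K : Type} [Field K] {e1 e2 e3 x y : K} (h : (Wk e1 e2 e3).toAffine.Equation x y) :
    y ^ 2 = (x - e1) * (x - e2) * (x - e3) := by
  rw [Affine.equation_iff] at h
  simp only [Wk] at h
  linear_combination h

/-- the first coordinate of the difference -/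
theorem sub_pts {K : Type} [Field K] {e1 e2 e3 x y x' y' : K}
    (h : (Wk e1 e2 e3).toAffine.Nonsingular x y) (h' : (Wk e1 e2 e3).toAffine.Nonsingular x' y')
    (hx : x ≠ x') : ∃ (X Y : K) (H : (Wk e1 e2 e3).toAffine.Nonsingular X Y),
      Affine.Point.some x y h - Affine.Point.some x' y' h' = Affine.Point.some X Y H ∧
      X = ((y + y') / (x - x')) ^ 2 + (e1 + e2 + e3 - x - x') := by
  rw [sub_eq_add_neg, Affine.Point.neg_some, Affine.Point.add_of_X_ne hx]
  refine ⟨_, _, _, rfl, ?_⟩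
  rw [Affine.slope_of_X_ne hx, Affine.addX, Affine.negY]
  simp only [Wk]
  have hx' : x - x' ≠ 0 := sub_ne_zero.2 hx
  field_simp
  ring

theorem t_DIF : S_DIF := by
  intro p _ e1 e2 e3 h12 h13 h23 C ε hε
  have h2 : (0 : ℝ) < ‖(2 : ℚ_[p])‖ := norm_pos_iff.mpr two_ne_zero
  set M : ℝ := max 1 C with hM
  have hM1 : 1 ≤ M := le_max_left _ _
  have hMC : C ≤ M := le_max_right _ _
  have hη : 0 < ‖(2 : ℚ_[p])‖ * ε / (M + 1) := by positivity
  refine ⟨‖(2 : ℚ_[p])‖ * ε / (M + 1), hη, ?_⟩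
  set η : ℝ := ‖(2 : ℚ_[p])‖ * ε / (M + 1) with hηd
  have hηM : η * (M + 1) = ‖(2 : ℚ_[p])‖ * ε := by
    rw [hηd]
    field_simp
  have hη2 : η ≤ ‖(2 : ℚ_[p])‖ * ε := by nlinarith
  intro x y x' y' h h' hxC hxC' hy hxx hyy hne
  have h2y : ‖(2 : ℚ_[p])‖ * ε ≤ ‖2 * y‖ := by
    rw [norm_mul]
    gcongr
  by_cases hx : x = x'
  · exfalso
    subst hx
    have q1 := eqn h.1
    have q2 := eqn h'.1
    have q3 : (y - y') * (y + y') = 0 := by linear_combination q1 - q2
    rcases mul_eq_zero.1 q3 with h0 | h0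
    · exact hne (by rw [sub_eq_zero.1 h0])
    · have h5 : y - y' = 2 * y := by linear_combination -h0
      rw [h5] at hyy
      linarith
  · obtain ⟨X, Y, H, hP, hX⟩ := sub_pts h h' hx
    refine ⟨X, Y, H, hP, ?_⟩
    -- the numerator
    have h5 : ‖y + y'‖ = ‖2 * y‖ := by
      have h6 : y + y' = 2 * y + (-(y - y')) := by ring
      have h7 : ‖-(y - y')‖ < ‖2 * y‖ := by
        rw [norm_neg]
        linarith
      rw [h6, Padic.add_eq_max_of_ne h7.ne', max_eq_left h7.le]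
    have h6 : 0 < ‖x - x'‖ := norm_pos_iff.mpr (sub_ne_zero.2 hx)
    have h7 : M + 1 < ‖(y + y') / (x - x')‖ := by
      rw [norm_div, h5, lt_div_iff₀ h6]
      calc (M + 1) * ‖x - x'‖ < (M + 1) * η := by
            apply mul_lt_mul_of_pos_left hxx
            linarith
        _ = ‖(2 : ℚ_[p])‖ * ε := by rw [← hηM]; ring
        _ ≤ ‖2 * y‖ := h2y
    have h8 : M < ‖((y + y') / (x - x')) ^ 2‖ := by
      rw [norm_pow]
      nlinarith
    -- the rest
    have h9 : ‖(e1 : ℚ_[p]) + e2 + e3 - x - x'‖ ≤ M := by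
      have hi : ‖(e1 : ℚ_[p]) + e2 + e3‖ ≤ M := by
        have : (e1 : ℚ_[p]) + e2 + e3 = ((e1 + e2 + e3 : ℤ) : ℚ_[p]) := by push_cast; ring
        rw [this]
        exact (Padic.norm_int_le_one _).trans hM1
      have e : (e1 : ℚ_[p]) + e2 + e3 - x - x' = ((e1 : ℚ_[p]) + e2 + e3) + (-x) + (-x') := by ring
      rw [e]
      refine (Padic.nonarchimedean _ _).trans (max_le ?_ ?_)
      · refine (Padic.nonarchimedean _ _).trans (max_le hi ?_)
        rw [norm_neg]
        exact hxC.trans hMC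
      · rw [norm_neg]
        exact hxC'.trans hMC
    have h10 : ‖(e1 : ℚ_[p]) + e2 + e3 - x - x'‖ < ‖((y + y') / (x - x')) ^ 2‖ :=
      lt_of_le_of_lt h9 h8
    rw [hX, Padic.add_eq_max_of_ne h10.ne', max_eq_left h10.le]
    exact lt_of_le_of_lt hMC h8

end Pool.Agent.N247.GK
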